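import Pool.Agent.W810.LP.Concl

set_option autoImplicit false

namespace Pool.Agent.Results.MP_c5cda2_mp.CouplingTypes

open MeasureTheory Filter Topology

/-- the Hilbert space `ℓ²(ℤ)` -/
abbrev L2 : Type := lp (fun _ : ℤ => ℂ) 2

/-- `V` is limit-periodic: a uniform limit of periodic real sequences -/
def LimitPeriodic (V : ℤ → ℝ) : Prop :=
  ∃ W : ℕ → ℤ → ℝ, (∀ k, ∃ p : ℕ, 1 ≤ p ∧ ∀ n : ℤ, W k (n + p) = W k n) ∧
    TendstoUniformly W V atTop

/-- `H` is the operator `Δ + V` on `ℓ²(ℤ)` -/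
def IsSchrodinger (V : ℤ → ℝ) (H : L2 →L[ℂ] L2) : Prop :=
  ∀ (ψ : L2) (n : ℤ), H ψ n = ψ (n - 1) + ψ (n + 1) + (V n : ℂ) * ψ n

/-- the operator `f(H)` of the continuous functional calculus, for a bounded self-adjoint operator
`H` on a complex Hilbert space -/
noncomputable def functionOf {X : Type} [NormedAddCommGroup X] [InnerProductSpace ℂ X]
    [CompleteSpace X] (f : ℝ → ℝ) (H : X →L[ℂ] X) : X →L[ℂ] X := cfc f H

/-- `μ` is the spectral measure of the vector `ψ` for the self-adjoint operator `H`: a finite Borel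
measure on the line with `⟨ψ, f(H) ψ⟩ = ∫ f dμ` for every continuous real `f`. -/
def IsSpectralMeasure (H : L2 →L[ℂ] L2) (ψ : L2) (μ : Measure ℝ) : Prop :=
  IsFiniteMeasure μ ∧ ∀ f : ℝ → ℝ, Continuous f → Integrable f μ ∧
    inner ℂ ψ (functionOf f H ψ) = ((∫ x, f x ∂μ : ℝ) : ℂ)

/-- the three labels -/
inductive Label
  | ac
  | sc
  | pp

/-- measures of the three types: absolutely continuous, singular without atoms, and carried by a
countable set -/
def HasLabel : Label → Measure ℝ → Prop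
  | Label.ac, μ => μ ≪ volume
  | Label.sc, μ => μ.MutuallySingular volume ∧ ∀ x, μ {x} = 0
  | Label.pp, μ => ∃ S : Set ℝ, S.Countable ∧ μ Sᶜ = 0

/-- the spectral type of `H`: the set of labels `t` for which the spectral subspace `ℋ_t` (the
vectors whose spectral measure has the label `t`) is not `{0}` -/
def spectralType (H : L2 →L[ℂ] L2) : Set Label :=
  {t | ∃ ψ : L2, ψ ≠ 0 ∧ ∃ μ : Measure ℝ, IsSpectralMeasure H ψ μ ∧ HasLabel t μ}

/-- There are a limit-periodic potential `V` and coupling constants `a, b > 0` such that the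
self-adjoint operators `Δ + a V` and `Δ + b V` have different spectral types: the first has a
nonzero absolutely continuous part, while the spectrum of the second is a Lebesgue null set and its
absolutely continuous part is zero. -/
theorem result : ∃ V : ℤ → ℝ, LimitPeriodic V ∧ ∃ a b : ℝ, 0 < a ∧ 0 < b ∧
    ∃ H₁ H₂ : L2 →L[ℂ] L2,
      IsSchrodinger (fun n => a * V n) H₁ ∧ IsSelfAdjoint H₁ ∧
      IsSchrodinger (fun n => b * V n) H₂ ∧ IsSelfAdjoint H₂ ∧
      Label.ac ∈ spectralType H₁ ∧ Label.ac ∉ spectralType H₂ ∧ volume (spectrum ℝ H₂) = 0 ∧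
      spectralType H₁ ≠ spectralType H₂ := by
  have hb1 : ∀ n, |1 / 2 ^ 33 * Pool.Agent.W810.LP.VV n| ≤ 10 := by
    intro n
    rw [abs_mul, abs_of_pos (by positivity : (0 : ℝ) < 1 / 2 ^ 33)]
    have h1 := Pool.Agent.W810.LP.VV_bdd n
    have h2 : (1 : ℝ) / 2 ^ 33 ≤ 1 := by norm_num
    calc (1 : ℝ) / 2 ^ 33 * |Pool.Agent.W810.LP.VV n| ≤ 1 * 10 := by gcongr
      _ = 10 := by norm_num
  have hb2 : ∀ n, |1 * Pool.Agent.W810.LP.VV n| ≤ 10 := by
    intro n
    rw [one_mul]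
    exact Pool.Agent.W810.LP.VV_bdd n
  obtain ⟨H₁, hH₁, hs₁⟩ := Pool.Agent.H695R3.ST.exists_schr hb1
  obtain ⟨H₂, hH₂, hs₂⟩ := Pool.Agent.H695R3.ST.exists_schr hb2
  have hH₂' : Pool.Agent.H695R3.ST.IsSchr Pool.Agent.W810.LP.VV H₂ := by
    intro ψ n
    have := hH₂ ψ n
    simp only [one_mul] at this
    exact this
  have hnull := Pool.Agent.W810.LP.null_spec hH₂'
  have h1 : Label.ac ∈ spectralType H₁ := by
    obtain ⟨S, hS, hS0, hK⟩ := Pool.Agent.W810.LP.ac_set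
    have hns := Pool.Agent.H585R3.AC508.not_singular
      (fun n => 1 / 2 ^ 33 * Pool.Agent.W810.LP.VV n) 10 hb1 H₁ hH₁ hs₁
      (Pool.Agent.H54R3.Spec508.mu H₁ (lp.single 2 (0 : ℤ) (1 : ℂ)))
      (fun f hf => Pool.Agent.H54R3.Spec508.key2 H₁ _ f hf) S hS hS0 (4 * 4 ^ 2) (by
        intro E hE u hu
        apply hK E hE u
        intro n
        have := hu n
        simp only [Pool.Agent.H508R3.HE]
        linarith)
    obtain ⟨ψ, μ, hψ, hfin, hμ, hac⟩ := Pool.Agent.W810.LP.exists_ac hs₁ _ hns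
    exact ⟨ψ, hψ, μ, ⟨hfin, fun f hf => ⟨(hμ f hf).1, (hμ f hf).2.symm⟩⟩, hac⟩
  have h2 : Label.ac ∉ spectralType H₂ := by
    rintro ⟨ψ, hψ, μ, ⟨hfin, hμ⟩, hac⟩
    exact hψ (Pool.Agent.W810.LP.no_ac hnull ψ μ
      (fun f hf => ⟨(hμ f hf).1, (hμ f hf).2.symm⟩) hac hs₂)
  refine ⟨Pool.Agent.W810.LP.VV, ?_, 1 / 2 ^ 33, 1, by positivity, one_pos, H₁, H₂, ?_, hs₁, ?_,
    hs₂, h1, h2, hnull, ?_⟩
  · refine ⟨fun k => (Pool.Agent.W810.LP.lev k).V,
      fun k => ⟨(Pool.Agent.W810.LP.lev k).N, (Pool.Agent.W810.LP.lev k).hN,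
        (Pool.Agent.W810.LP.lev k).hV⟩, ?_⟩
    rw [Metric.tendstoUniformly_iff]
    intro ε hε
    have hlim : Tendsto (fun k : ℕ => 64 / 7 * (1 / 8 : ℝ) ^ k) atTop (𝓝 (64 / 7 * 0)) :=
      (tendsto_pow_atTop_nhds_zero_of_lt_one (by norm_num) (by norm_num)).const_mul _
    rw [mul_zero] at hlim
    filter_upwards [hlim.eventually (gt_mem_nhds hε)] with k hk n
    rw [Real.dist_eq]
    refine lt_of_le_of_lt (Pool.Agent.W810.LP.VV_near k n) (lt_of_le_of_lt ?_ hk)
    exact div_le_self (by positivity) (Pool.Agent.W810.LP.lev_N_pos k)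
  · intro ψ n
    rw [hH₁]
    ring
  · intro ψ n
    rw [hH₂]
    ring
  · intro h
    rw [h] at h1
    exact h2 h1

end Pool.Agent.Results.MP_c5cda2_mp.CouplingTypes
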